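import Pool.Agent.R225.BO.Main
import Pool.Agent.R225.BO.V1
import Pool.Agent.R225.BO.V
import Pool.Agent.R225.BO.CH
import Pool.Agent.R225.BO.COL
import Pool.Agent.R225.BO.GP
import Pool.Agent.R225.BO.SLAB
import Pool.Agent.R225.BO.EDGE
import Pool.Agent.R225.BO.MEAS
import Pool.Agent.R225.BO.FIN
import Pool.Agent.R225.BO.NET
import Pool.Agent.R225.BO.UP

set_option autoImplicit false

open MeasureTheory Filter Topology
open Pool.Agent.R225.BO

namespace Pool.Agent.Results.MP_a0c464_pr.TwoPointConcentration

/-- **Two-point concentration of the chromatic number of random Borsuk graphs** (Q1, answer yes).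
Here `borsuk d α` is the Borsuk graph on the unit sphere `S^d ⊂ ℝ^{d+1}` (distinct `x, y` adjacent
iff their angle is `> π - α`), `geo α X` is the graph on `Fin n` in which distinct `i, j` are
adjacent iff the angle of `X i, X j` is `> π - α`, and `law d n` is the law of `n` independent
uniform points of `S^d`.

1. For `d ≥ 1`, `α₀ > 0` such that the Borsuk graph has chromatic number `d + 2` for all
`0 < α < α₀` (the constant fixed in the problem), and every sequence `0 < α n < α₀` there are
integers `k n` with `P(χ ∈ {k n, k n + 1}) → 1`.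
2. For every `d` and every sequence `α n > 0` tending to `0` the same holds (no `α₀` is needed).
3. All the events are measurable. -/
theorem result :
    (∀ d : ℕ, 1 ≤ d → ∀ α₀ : ℝ, 0 < α₀ →
      (∀ α, 0 < α → α < α₀ → (borsuk d α).chromaticNumber = d + 2) →
      ∀ α : ℕ → ℝ, (∀ n, 0 < α n ∧ α n < α₀) → ∃ k : ℕ → ℕ,
        Tendsto (fun n => law d n {X | (geo (α n) X).chromaticNumber = k n ∨
          (geo (α n) X).chromaticNumber = k n + 1}) atTop (𝓝 1)) ∧
    (∀ (d : ℕ) (α : ℕ → ℝ), (∀ n, 0 < α n) → Tendsto α atTop (𝓝 0) → ∃ k : ℕ → ℕ,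
        Tendsto (fun n => law d n {X | (geo (α n) X).chromaticNumber = k n ∨
          (geo (α n) X).chromaticNumber = k n + 1}) atTop (𝓝 1)) ∧
    (∀ (d n k : ℕ) (α : ℝ), MeasurableSet {X : Fin n → Sph d |
      (geo α X).chromaticNumber = k ∨ (geo α X).chromaticNumber = k + 1}) := by
  have hA : S_A := s_a (s_ch (s_v s_v1)) s_col s_gp s_slab s_edge s_meas
  refine ⟨s_main hA s_fin s_net s_up, fun d α hα h0 => s_zero hA d α hα h0, fun d n k α => ?_⟩
  exact (s_meas d n α Set.univ MeasurableSet.univ
    (fun G => G.chromaticNumber = k ∨ G.chromaticNumber = k + 1)).2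

end Pool.Agent.Results.MP_a0c464_pr.TwoPointConcentration
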